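import Pool.Agent.Q192.TT.Sen
import Pool.Agent.Q137.TT.Plc
import Pool.Agent.Q35.TB.Stm

/-! # Project TB (helper35), job SEX: a place of good reduction with a small residue field, uniform
in all extensions of bounded degree (after the proofs of helper68, helper192 and helper137) -/

set_option autoImplicit false
set_option linter.unusedSectionVars false

namespace Pool.Agent.Q182.TB

open Pool.Agent.Q35.TT Pool.Agent.Q35.TB Pool.Agent.Q68.TT Pool.Agent.Q192.TT Pool.Agent.Q137.TT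
  Height Height.AdmissibleAbsValues Function NumberField IsDedekindDomain

section field

variable {L : Type} [Field L] [NumberField L]

/-- the archimedean places of a number field -/
theorem arch_form {v : AbsoluteValue L ℝ} (hv : v ∈ archAbsVal (K := L)) :
    ∃ φ : L →+* ℂ, ∀ x, v x = ‖φ x‖ := by
  have hv' : v ∈ multisetInfinitePlace L := hv
  rw [mem_multisetInfinitePlace] at hv'
  obtain ⟨w, rfl⟩ := (isInfinitePlace_iff v).1 hv'
  exact ⟨w.embedding, fun x => (InfinitePlace.norm_embedding_eq w x).symm⟩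

theorem arch_nat {v : AbsoluteValue L ℝ} (hv : v ∈ archAbsVal (K := L)) (n : ℕ) :
    v (n : L) = n := by
  obtain ⟨φ, hφ⟩ := arch_form hv
  rw [hφ, map_natCast, Complex.norm_natCast]

/-- integral elements are integral at the nonarchimedean places -/
theorem na_int {v : AbsoluteValue L ℝ} (hv : v ∈ nonarchAbsVal (K := L)) {x : L}
    (hx : IsIntegral ℤ x) : v x ≤ 1 := by
  obtain ⟨P, rfl⟩ := hv
  have h1 : x = algebraMap (𝓞 L) L ⟨x, hx⟩ := rfl
  rw [h1, NumberField.place_apply]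
  exact FinitePlace.norm_le_one L P _

/-- an integer which is prime to the residue characteristic is a unit -/
theorem na_unit {v : AbsoluteValue L ℝ} (hv : v ∈ nonarchAbsVal (K := L)) {p m : ℕ}
    (hp : p.Prime) (h1 : v (p : L) < 1) (hm : m ≠ 0) (hmp : m < p) : v (m : L) = 1 := by
  have hna := isNonarchimedean v hv
  have hle : ∀ n : ℤ, v (n : L) ≤ 1 := fun n => hna.apply_intCast_le_one
  have hc : Nat.Coprime m p :=
    ((hp.coprime_iff_not_dvd.2 fun hd => by
      have := Nat.le_of_dvd (Nat.pos_of_ne_zero hm) hd; omega)).symm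
  have hz : IsCoprime (m : ℤ) (p : ℤ) := Nat.isCoprime_iff_coprime.2 hc
  obtain ⟨a, b, hab⟩ := hz
  have h3 : ((a : ℤ) : L) * (m : L) + ((b : ℤ) : L) * (p : L) = 1 := by
    exact_mod_cast congrArg (fun z : ℤ => (z : L)) hab
  have hmle : v (m : L) ≤ 1 := by
    have := hle m
    rwa [Int.cast_natCast] at this
  refine le_antisymm hmle ?_
  by_contra hlt
  rw [not_le] at hlt
  have h4 : v (((a : ℤ) : L) * (m : L)) < 1 := by
    rw [map_mul]
    exact (mul_le_of_le_one_left (v.nonneg _) (hle a)).trans_lt hlt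
  have h5 : v (((b : ℤ) : L) * (p : L)) < 1 := by
    rw [map_mul]
    exact (mul_le_of_le_one_left (v.nonneg _) (hle b)).trans_lt h1
  have h6 : v (1 : L) < 1 := by
    rw [← h3]
    exact (hna _ _).trans_lt (max_lt h4 h5)
  rw [map_one] at h6
  exact lt_irrefl _ h6

/-- lower bound for the absolute value of a prime number -/
theorem na_prime {v : AbsoluteValue L ℝ} (hv : v ∈ nonarchAbsVal (K := L)) {p : ℕ}
    (hp : p ≠ 0) : 1 ≤ (p : ℝ) ^ Module.finrank ℚ L * v (p : L) := by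
  classical
  have h := prod_bd (K := L) (n := 0) Fin.elim0 (fun _ => (p : ℝ)) (fun _ => 1) (fun _ => le_rfl)
    hasFiniteMulSupport_one 0 (p : L) (by exact_mod_cast hp)
    (fun w hw => by rw [arch_nat hw, pow_zero, mul_one])
    (fun w hw => by
      rw [pow_zero, mul_one]
      have := (isNonarchimedean w hw).apply_intCast_le_one (n := (p : ℤ))
      rwa [Int.cast_natCast] at this)
    {⟨v, hv⟩}
  rw [Multiset.map_const', Multiset.prod_replicate, finprod_one, mul_one, pow_zero, mul_one,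
    Finset.prod_singleton, pow_zero, mul_one, div_one] at h
  have h2 : Multiset.card (archAbsVal (K := L)) = Module.finrank ℚ L :=
    totalWeight_eq_finrank L
  rwa [h2] at h

/-- a place over a prime number -/
theorem plx {p : ℕ} (hp : p.Prime) : ∃ v ∈ nonarchAbsVal (K := L), v (p : L) < 1 ∧
    (∀ u : L, v u < 1 → v u * p ≤ 1) ∧ SmallRes v p (Module.finrank ℚ L) := by
  obtain ⟨P, hP1, hP2, hP3⟩ := exists_over (K := L) hp
  obtain ⟨v, hv⟩ : ∃ v : AbsoluteValue L ℝ, v = NumberField.place (FinitePlace.embedding P) :=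
    ⟨_, rfl⟩
  have hvm : v ∈ nonarchAbsVal (K := L) := by
    rw [hv]
    exact place_mem P
  have hna := isNonarchimedean v hvm
  refine ⟨v, hvm, ?_, ?_, ?_⟩
  · have h5 := (place_int P (p : 𝓞 L)).2 hP1
    rw [map_natCast] at h5
    rw [hv]
    exact h5
  · intro u hu
    rw [hv] at hu ⊢
    refine le_trans ?_ (place_gap P u hu)
    exact mul_le_mul_of_nonneg_left (by exact_mod_cast hP2) (AbsoluteValue.nonneg _ _)
  · have hfin : Finite (𝓞 L ⧸ P.asIdeal) := P.asIdeal.finiteQuotientOfFreeOfNeBot P.ne_bot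
    have hr : ∀ x : L, ∃ a : 𝓞 L, v x ≤ 1 → v (x - algebraMap (𝓞 L) L a) < 1 := by
      intro x
      by_cases hx : v x ≤ 1
      · rw [hv] at hx ⊢
        obtain ⟨a, ha⟩ := place_approx P x hx
        exact ⟨a, fun _ => ha⟩
      · exact ⟨0, fun h => absurd h hx⟩
    choose r hr using hr
    let : Fintype (𝓞 L ⧸ P.asIdeal) := Fintype.ofFinite _
    refine ⟨𝓞 L ⧸ P.asIdeal, inferInstance, fun x => Ideal.Quotient.mk P.asIdeal (r x), ?_, ?_⟩
    · have hc : Fintype.card (𝓞 L ⧸ P.asIdeal) = Ideal.absNorm P.asIdeal := by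
        rw [← Nat.card_eq_fintype_card, Ideal.absNorm_apply, Submodule.cardQuot_apply]
      rw [hc]
      exact hP3
    · intro x y hx hy hxy
      have h5 : r x - r y ∈ P.asIdeal := Ideal.Quotient.eq.1 hxy
      have h6 : v (algebraMap (𝓞 L) L (r x - r y)) < 1 := by
        rw [hv]
        exact (place_int P _).2 h5
      have h7 := hr x hx
      have h8 := hr y hy
      have e : x - y = (x - algebraMap (𝓞 L) L (r x)) + (algebraMap (𝓞 L) L (r x - r y)
          + -(y - algebraMap (𝓞 L) L (r y))) := by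
        rw [map_sub]
        ring
      rw [e]
      refine (hna _ _).trans_lt (max_lt h7 ?_)
      refine (hna _ _).trans_lt (max_lt h6 ?_)
      rw [v.map_neg]
      exact h8

/-- absolute values larger than one are at least `p` -/
theorem na_large {v : AbsoluteValue L ℝ} {p : ℕ} (hu : ∀ u : L, v u < 1 → v u * p ≤ 1) {u : L}
    (h : 1 < v u) : (p : ℝ) ≤ v u := by
  have h0 : 0 < v u := zero_lt_one.trans h
  have h1 := hu u⁻¹ (by
    rw [map_inv₀]
    exact inv_lt_one_of_one_lt₀ h)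
  rw [map_inv₀, ← div_eq_inv_mul, div_le_one h0] at h1
  exact h1

end field

/-- a common denominator of the elements of a finite set and of their inverses -/
theorem exists_den {K : Type} [Field K] [NumberField K] (S : Finset K) :
    ∃ m : ℕ, m ≠ 0 ∧ ∀ s ∈ S, IsIntegral ℤ ((m : K) * s) ∧ IsIntegral ℤ ((m : K) * s⁻¹) := by
  classical
  obtain ⟨y, hy0, hy⟩ := exists_integral_multiples ℤ ℚ (S ∪ S.image fun s => s⁻¹)
  refine ⟨y.natAbs, Int.natAbs_ne_zero.2 hy0, ?_⟩
  have key : ∀ x : K, IsIntegral ℤ (y • x) → IsIntegral ℤ ((y.natAbs : K) * x) := by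
    intro x hx
    rw [zsmul_eq_mul] at hx
    rcases Int.natAbs_eq y with h | h
    · rw [h, Int.cast_natCast] at hx
      exact hx
    · rw [h, Int.cast_neg, Int.cast_natCast, neg_mul] at hx
      have := hx.neg
      rwa [neg_neg] at this
  intro s hs
  exact ⟨key _ (hy _ (Finset.mem_union_left _ hs)),
    key _ (hy _ (Finset.mem_union_right _ (Finset.mem_image_of_mem _ hs)))⟩

/-- the units at the places over large prime numbers -/
theorem unit_at {K L : Type} [Field K] [Field L] [NumberField L] [Algebra K L]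
    {v : AbsoluteValue L ℝ} (hv : v ∈ nonarchAbsVal (K := L)) {m : ℕ} (hm : v (m : L) = 1) {s : K}
    (hs : s ≠ 0) (h1 : IsIntegral ℤ ((m : K) * s)) (h2 : IsIntegral ℤ ((m : K) * s⁻¹)) :
    v (algebraMap K L s) = 1 := by
  have h3 := na_int hv (h1.map (algebraMap K L).toIntAlgHom)
  have h4 := na_int hv (h2.map (algebraMap K L).toIntAlgHom)
  have h3' : v (algebraMap K L s) ≤ 1 := by
    have h5 : (algebraMap K L).toIntAlgHom ((m : K) * s) = (m : L) * algebraMap K L s := by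
      show algebraMap K L ((m : K) * s) = _
      rw [map_mul, map_natCast]
    rwa [h5, map_mul, hm, one_mul] at h3
  have h4' : (v (algebraMap K L s))⁻¹ ≤ 1 := by
    have h5 : (algebraMap K L).toIntAlgHom ((m : K) * s⁻¹) = (m : L) * (algebraMap K L s)⁻¹ := by
      show algebraMap K L ((m : K) * s⁻¹) = _
      rw [map_mul, map_natCast, map_inv₀]
    rwa [h5, map_mul, hm, one_mul, map_inv₀] at h4
  have h0 : 0 < v (algebraMap K L s) := v.pos (by
    intro h
    exact hs ((algebraMap K L).injective (by rw [h, map_zero])))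
  refine le_antisymm h3' ?_
  by_contra hlt
  rw [not_le] at hlt
  have := (one_lt_inv₀ h0).2 hlt
  linarith

/-- the degree of an extension of bounded degree -/
theorem deg_le {K L : Type} [Field K] [NumberField K] [Field L] [NumberField L] [Algebra K L]
    {D : ℕ} (h : Module.finrank K L ≤ D) :
    Module.finrank ℚ L ≤ D * Module.finrank ℚ K := by
  have h1 : Module.Finite K L := Module.Finite.of_restrictScalars_finite ℚ K L
  rw [← Module.finrank_mul_finrank ℚ K L, mul_comm]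
  exact Nat.mul_le_mul_right _ h

/-- **SEX** -/
theorem sex : S_SEX := by
  classical
  intro K _ _ nn P d hd S M D
  obtain ⟨m, hm0, hm⟩ := exists_den (S ∪ P.support.image fun e => P.coeff e)
  obtain ⟨p₀, hp₀⟩ : ∃ p₀ : ℕ, p₀ = m + 3 := ⟨_, rfl⟩
  -- the primes
  have hpr : ∀ i : ℕ, ∃ p : ℕ, p.Prime ∧ 2 ^ i < p ∧ p ≤ 2 * 2 ^ i := fun i =>
    Nat.exists_prime_lt_and_le_two_mul (2 ^ i) (by positivity)
  choose q hq1 hq2 hq3 using hpr
  have hqlt : ∀ i j : ℕ, i < j → q (p₀ + i) < q (p₀ + j) := by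
    intro i j hij
    calc q (p₀ + i) ≤ 2 * 2 ^ (p₀ + i) := hq3 _
      _ = 2 ^ (p₀ + i + 1) := by rw [pow_succ]; ring
      _ ≤ 2 ^ (p₀ + j) := Nat.pow_le_pow_right (by norm_num) (by omega)
      _ < q (p₀ + j) := hq2 _
  have hqm : ∀ j : ℕ, m < q (p₀ + j) := by
    intro j
    calc m < 2 ^ m := Nat.lt_two_pow_self
      _ ≤ 2 ^ (p₀ + j) := Nat.pow_le_pow_right (by norm_num) (by omega)
      _ < q (p₀ + j) := hq2 _
  have hq5 : ∀ j : ℕ, 5 ≤ q (p₀ + j) := by
    intro j
    have h1 : 2 ^ 3 ≤ 2 ^ (p₀ + j) := Nat.pow_le_pow_right (by norm_num) (by omega)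
    have h2 := hq2 (p₀ + j)
    omega
  -- the polynomial with integral coefficients
  obtain ⟨P₁, hP₁⟩ : ∃ P₁ : MvPolynomial (Fin nn) K, P₁ = MvPolynomial.C (m : K) * P := ⟨_, rfl⟩
  have hc1 : ∀ e, P₁.coeff e = (m : K) * P.coeff e := by
    intro e
    rw [hP₁, MvPolynomial.coeff_C_mul]
  have hint : ∀ e, IsIntegral ℤ (P₁.coeff e) := by
    intro e
    rw [hc1]
    by_cases he : e ∈ P.support
    · exact (hm _ (Finset.mem_union_right _ (Finset.mem_image_of_mem _ he))).1
    · rw [MvPolynomial.notMem_support_iff.1 he, mul_zero]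
      exact isIntegral_zero
  have hdeg : ∀ j, P₁.degreeOf j ≤ d := by
    intro j
    rw [hP₁]
    exact (MvPolynomial.degreeOf_C_mul_le _ _ _).trans (hd j)
  -- the archimedean constant
  obtain ⟨A, hA⟩ : ∃ A : ℝ, A = 1 + ∑ e ∈ P₁.support, ∑ φ : K →+* ℂ, ‖φ (P₁.coeff e)‖ :=
    ⟨_, rfl⟩
  have hA1 : 1 ≤ A := by
    rw [hA]
    have : 0 ≤ ∑ e ∈ P₁.support, ∑ φ : K →+* ℂ, ‖φ (P₁.coeff e)‖ :=
      Finset.sum_nonneg fun _ _ => Finset.sum_nonneg fun _ _ => norm_nonneg _
    linarith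
  obtain ⟨n0, hn0⟩ : ∃ n0, n0 = D * Module.finrank ℚ K := ⟨_, rfl⟩
  obtain ⟨C0, hC0⟩ : ∃ C0 : ℝ, C0 = A ^ n0 := ⟨_, rfl⟩
  have hC01 : 1 ≤ C0 := by
    rw [hC0]
    exact one_le_pow₀ hA1
  obtain ⟨α, hα⟩ : ∃ α, α = M * ((p₀ + 1) + (1 + 2 * n0 * (p₀ + 1))) := ⟨_, rfl⟩
  obtain ⟨β, hβ⟩ : ∃ β, β = M * (1 + 2 * n0) := ⟨_, rfl⟩
  obtain ⟨B, hB⟩ : ∃ B, B = (d + 1) * α + ((d + 1) * β + 1) ^ 2 := ⟨_, rfl⟩
  refine ⟨2 ^ B * C0, by positivity, ?_⟩
  intro L _ _ _ hL z ht
  have hdegL := deg_le (K := K) hL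
  rw [← hn0] at hdegL ⊢
  -- the places
  choose v hv hlt hu hF using fun j : ℕ => plx (L := L) (hq1 (p₀ + j))
  have hvm : ∀ j, v j (m : L) = 1 := fun j => na_unit (hv j) (hq1 _) (hlt j) hm0 (hqm j)
  have hne : ∀ i j : ℕ, i < j → v i ≠ v j := by
    intro i j hij h
    have h1 := hlt i
    have h2 := na_unit (hv j) (hq1 _) (hlt j) (hq1 (p₀ + i)).ne_zero (hqlt i j hij)
    rw [h, h2] at h1
    exact lt_irrefl _ h1
  have hinj : Function.Injective v := by
    intro i j h
    rcases lt_trichotomy i j with h1 | h1 | h1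
    · exact absurd h (hne i j h1)
    · exact h1
    · exact absurd h.symm (hne j i h1)
  -- the value of the polynomial
  obtain ⟨x, hx⟩ : ∃ x : L, x = MvPolynomial.eval z (ex L P₁) := ⟨_, rfl⟩
  have hxm : x = (m : L) * MvPolynomial.eval z (ex L P) := by
    rw [hx, hP₁]
    show MvPolynomial.eval z (MvPolynomial.map (algebraMap K L) (MvPolynomial.C (m : K) * P)) = _
    rw [map_mul, map_mul, MvPolynomial.map_C, MvPolynomial.eval_C, map_natCast]
  have hmL : (m : L) ≠ 0 := by exact_mod_cast hm0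
  have hx0 : x ≠ 0 := by
    rw [hxm]
    exact mul_ne_zero hmL ht
  have hxv : ∀ j, v j x = v j (MvPolynomial.eval z (ex L P)) := by
    intro j
    rw [hxm, map_mul, hvm, one_mul]
  have hsupp : (ex L P₁).support = P₁.support :=
    MvPolynomial.support_map_of_injective _ (algebraMap K L).injective
  have hdegL1 : ∀ j, (ex L P₁).degreeOf j ≤ d := by
    intro j
    have h1 := hdeg j
    rw [MvPolynomial.degreeOf_le_iff] at h1 ⊢
    rw [hsupp]
    exact h1
  have hcoL : ∀ e, (ex L P₁).coeff e = algebraMap K L (P₁.coeff e) := fun e =>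
    MvPolynomial.coeff_map _ _ _
  have hna1 : ∀ w ∈ nonarchAbsVal (K := L), w x ≤ 1 * mx z w ^ d := by
    intro w hw
    have h1 := poly_na' (isNonarchimedean w hw) (ex L P₁) hdegL1 z
    have h2 : ∏ e ∈ (ex L P₁).support, max (w ((ex L P₁).coeff e)) 1 = 1 := by
      refine Finset.prod_eq_one fun e _ => max_eq_right ?_
      rw [hcoL]
      exact na_int hw ((hint e).map (algebraMap K L).toIntAlgHom)
    rw [h2] at h1
    rw [hx]
    exact h1
  have har1 : ∀ w ∈ archAbsVal (K := L), w x ≤ A * mx z w ^ d := by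
    intro w hw
    have h1 := poly_arch' w (ex L P₁) hdegL1 z
    rw [hx]
    refine h1.trans (mul_le_mul_of_nonneg_right ?_
      (pow_nonneg (zero_le_one.trans (one_le_mx z w)) _))
    rw [hsupp, hA]
    obtain ⟨φ, hφ⟩ := arch_form hw
    have h2 : ∑ e ∈ P₁.support, w ((ex L P₁).coeff e) ≤
        ∑ e ∈ P₁.support, ∑ φ : K →+* ℂ, ‖φ (P₁.coeff e)‖ := by
      refine Finset.sum_le_sum fun e _ => ?_
      rw [hcoL, hφ]
      exact Finset.single_le_sum (f := fun ψ : K →+* ℂ => ‖ψ (P₁.coeff e)‖)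
        (fun ψ _ => norm_nonneg _) (Finset.mem_univ (φ.comp (algebraMap K L)))
    linarith
  obtain ⟨Hz, hHz⟩ : ∃ Hz : ℝ, Hz = ∏ j, mulHeight₁ (z j) := ⟨_, rfl⟩
  have hH1 : 1 ≤ Hz := by
    rw [hHz]
    have h1 : (1 : ℝ) = ∏ _j : Fin nn, (1 : ℝ) := by rw [Finset.prod_const_one]
    conv_lhs => rw [h1]
    exact Finset.prod_le_prod (fun _ _ => zero_le_one) fun j _ => one_le_mulHeight₁ _
  -- all places with an index below `n` bad
  have hbad : ∀ n : ℕ, (∀ j, j < n → v j x < mx z (v j) ^ d) →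
      (2 : ℝ) ^ (∑ j ∈ Finset.range n, j) ≤ C0 * Hz ^ d := by
    intro n hn
    have h1 := prod_bd (K := L) z (fun _ => A) (fun _ => 1) (fun _ => le_rfl)
      hasFiniteMulSupport_one d x hx0 har1 hna1
      ((Finset.range n).image fun j => (⟨v j, hv j⟩ : nonarchAbsVal (K := L)))
    rw [Finset.prod_image (fun i _ j _ h => hinj (congrArg Subtype.val h)), ← hHz,
      Multiset.map_const', Multiset.prod_replicate, finprod_one, mul_one] at h1
    have hcard : Multiset.card (archAbsVal (K := L)) ≤ n0 :=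
      (totalWeight_eq_finrank L).le.trans hdegL
    have hC0le : A ^ Multiset.card (archAbsVal (K := L)) ≤ C0 := by
      rw [hC0]
      exact pow_le_pow_right₀ hA1 hcard
    have h2 : ∀ j ∈ Finset.range n, v j x / (1 * mx z (v j) ^ d) ≤ ((2 : ℝ) ^ j)⁻¹ := by
      intro j hj
      rw [one_mul]
      have h3 := bad_bd' (hu j) (hn j (Finset.mem_range.1 hj))
      have h4 : (2 : ℝ) ^ j ≤ q (p₀ + j) := by
        have h5 : 2 ^ j ≤ q (p₀ + j) :=
          (Nat.pow_le_pow_right (by norm_num) (by omega)).trans (hq2 (p₀ + j)).le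
        exact_mod_cast h5
      have h5 : 0 ≤ v j x / mx z (v j) ^ d :=
        div_nonneg ((v j).nonneg _) (pow_nonneg (zero_le_one.trans (one_le_mx z _)) _)
      rw [← one_div, le_div_iff₀ (by positivity)]
      exact (mul_le_mul_of_nonneg_left h4 h5).trans h3
    have h0 : ∀ j ∈ Finset.range n, 0 ≤ v j x / (1 * mx z (v j) ^ d) := by
      intro j _
      rw [one_mul]
      exact div_nonneg ((v j).nonneg _) (pow_nonneg (zero_le_one.trans (one_le_mx z _)) _)
    have h3 : ∏ j ∈ Finset.range n, v j x / (1 * mx z (v j) ^ d) ≤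
        ((2 : ℝ) ^ (∑ j ∈ Finset.range n, j))⁻¹ := by
      refine (Finset.prod_le_prod h0 h2).trans (le_of_eq ?_)
      rw [Finset.prod_inv_distrib, Finset.prod_pow_eq_pow_sum]
    have h4 : 0 ≤ ∏ j ∈ Finset.range n, v j x / (1 * mx z (v j) ^ d) :=
      Finset.prod_nonneg h0
    have h5 : 0 ≤ Hz ^ d := pow_nonneg (by linarith) _
    have h6 : 1 ≤ C0 * Hz ^ d * ((2 : ℝ) ^ (∑ j ∈ Finset.range n, j))⁻¹ := by
      refine h1.trans ?_
      exact mul_le_mul (mul_le_mul_of_nonneg_right hC0le h5) h3 h4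
        (mul_nonneg (by linarith) h5)
    rwa [← div_eq_mul_inv, one_le_div (by positivity)] at h6
  -- there is a good place
  have hex : ∃ j : ℕ, ¬ v j x < mx z (v j) ^ d := by
    by_contra hcon
    push Not at hcon
    obtain ⟨n, hn⟩ := pow_unbounded_of_one_lt (C0 * Hz ^ d)
      (by norm_num : (1 : ℝ) < 2)
    have h1 := hbad (n + 1) fun j _ => hcon j
    have h2 : n ≤ ∑ j ∈ Finset.range (n + 1), j := by
      rw [Finset.sum_range_succ]
      omega
    have h3 : (2 : ℝ) ^ n ≤ 2 ^ (∑ j ∈ Finset.range (n + 1), j) :=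
      pow_le_pow_right₀ (by norm_num) h2
    linarith
  obtain ⟨j, hj, hmin⟩ : ∃ j : ℕ, (¬ v j x < mx z (v j) ^ d) ∧
      ∀ i, i < j → v i x < mx z (v i) ^ d :=
    ⟨Nat.find hex, Nat.find_spec hex, fun i hi => not_not.1 (Nat.find_min hex hi)⟩
  have hkey := hbad j hmin
  refine ⟨v j, hv j, q (p₀ + j), hq1 _, hq5 j, hlt j, ?_, ?_, ?_, ?_⟩
  · intro u hu1
    have h1 := na_large (hu j) hu1
    have h2 := na_prime (hv j) (hq1 (p₀ + j)).ne_zero
    refine h2.trans (mul_le_mul_of_nonneg_right ?_ ((v j).nonneg _))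
    exact (pow_le_pow_left₀ (Nat.cast_nonneg _) h1 _).trans
      (pow_le_pow_right₀ hu1.le hdegL)
  · intro s hs hs0
    obtain ⟨h1, h2⟩ := hm s (Finset.mem_union_left _ hs)
    exact unit_at (hv j) (hvm j) hs0 h1 h2
  · have hmxj : ∏ l, max 1 (v j (z l)) ^ d = mx z (v j) ^ d := by
      unfold mx
      rw [← Finset.prod_pow]
      exact Finset.prod_congr rfl fun l _ => by rw [max_comm]
    rw [hmxj, ← hxv]
    refine le_antisymm ?_ (not_lt.1 hj)
    have h1 := hna1 (v j) (hv j)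
    rwa [one_mul] at h1
  · obtain ⟨F, iF, ρ, hcard, hρ⟩ := hF j
    refine ⟨F, iF, ρ, ?_, hρ⟩
    have hq4 : q (p₀ + j) ≤ 2 ^ (p₀ + j + 1) := by
      calc q (p₀ + j) ≤ 2 * 2 ^ (p₀ + j) := hq3 _
        _ = 2 ^ (p₀ + j + 1) := by rw [pow_succ]; ring
    have hc1 : Fintype.card F ≤ 2 ^ ((p₀ + j + 1) * n0) := by
      refine hcard.trans ?_
      refine (Nat.pow_le_pow_right (hq1 _).pos hdegL).trans ?_
      rw [pow_mul]
      exact Nat.pow_le_pow_left hq4 _
    have hc2 : Fintype.card F ^ 2 + 1 ≤ 2 ^ (1 + 2 * ((p₀ + j + 1) * n0)) := by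
      have h1 : Fintype.card F ^ 2 ≤ (2 ^ ((p₀ + j + 1) * n0)) ^ 2 := Nat.pow_le_pow_left hc1 2
      have h2 : 1 ≤ (2 ^ ((p₀ + j + 1) * n0)) ^ 2 := Nat.one_le_pow _ _ (by positivity)
      have h3 : 2 ^ (1 + 2 * ((p₀ + j + 1) * n0)) = 2 * (2 ^ ((p₀ + j + 1) * n0)) ^ 2 := by
        rw [pow_add, pow_one, ← pow_mul, mul_comm 2 ((p₀ + j + 1) * n0)]
      rw [h3]
      omega
    have hc4 : q (p₀ + j) * (Fintype.card F ^ 2 + 1) ≤
        2 ^ ((p₀ + j + 1) + (1 + 2 * ((p₀ + j + 1) * n0))) := by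
      rw [pow_add]
      exact Nat.mul_le_mul hq4 hc2
    have hc3 : (((q (p₀ + j) * (Fintype.card F ^ 2 + 1) : ℕ) : ℝ)) ^ M ≤ 2 ^ (α + β * j) := by
      have h1 : (((q (p₀ + j) * (Fintype.card F ^ 2 + 1) : ℕ) : ℝ)) ≤
          2 ^ ((p₀ + j + 1) + (1 + 2 * ((p₀ + j + 1) * n0))) := by
        exact_mod_cast hc4
      refine (pow_le_pow_left₀ (by positivity) h1 M).trans (le_of_eq ?_)
      rw [← pow_mul]
      congr 1
      rw [hα, hβ]
      ring
    refine hc3.trans ?_
    rw [← hHz]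
    have hpos : 0 ≤ 2 ^ B * C0 * Hz := mul_nonneg (mul_nonneg (by positivity) (by linarith)) (by linarith)
    refine (pow_le_pow_iff_left₀ (by positivity) hpos (Nat.succ_ne_zero d)).1 ?_
    have h1 : (d + 1) * (α + β * j) ≤ (∑ i ∈ Finset.range j, i) + B := by
      have h2 := growth ((d + 1) * β) j
      rw [hB]
      nlinarith [h2]
    have h2 : ((2 : ℝ) ^ (α + β * j)) ^ (d + 1) ≤ 2 ^ B * 2 ^ (∑ i ∈ Finset.range j, i) := by
      rw [← pow_mul, ← pow_add]
      refine pow_le_pow_right₀ (by norm_num) ?_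
      rw [mul_comm (α + β * j), add_comm B]
      exact h1
    have h3 : Hz ^ d ≤ Hz ^ (d + 1) := pow_le_pow_right₀ hH1 (Nat.le_succ d)
    have h4 : (2 : ℝ) ^ B * C0 ≤ (2 ^ B * C0) ^ (d + 1) := by
      have h5 : 1 ≤ (2 : ℝ) ^ B * C0 := by
        have h6 : (1 : ℝ) ≤ 2 ^ B := one_le_pow₀ (by norm_num)
        nlinarith
      exact le_self_pow₀ h5 (Nat.succ_ne_zero d)
    have h7 : 0 ≤ Hz ^ (d + 1) := pow_nonneg (by linarith) _
    calc ((2 : ℝ) ^ (α + β * j)) ^ (d + 1) ≤ 2 ^ B * 2 ^ (∑ i ∈ Finset.range j, i) := h2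
      _ ≤ 2 ^ B * (C0 * Hz ^ d) := mul_le_mul_of_nonneg_left hkey (by positivity)
      _ ≤ 2 ^ B * (C0 * Hz ^ (d + 1)) :=
          mul_le_mul_of_nonneg_left (mul_le_mul_of_nonneg_left h3 (by linarith)) (by positivity)
      _ = (2 ^ B * C0) * Hz ^ (d + 1) := by ring
      _ ≤ (2 ^ B * C0) ^ (d + 1) * Hz ^ (d + 1) := mul_le_mul_of_nonneg_right h4 h7
      _ = (2 ^ B * C0 * Hz) ^ (d + 1) := (mul_pow _ _ _).symm

end Pool.Agent.Q182.TB
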