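import Pool.Agent.Q53.TT.ORN
import Pool.Agent.Q65.TT.Twl
import Pool.Agent.Q182.TB.Sex

/-!
# Project TB (helper35), job ORX: the order of the torsion points, uniform in all extensions of
bounded degree (after the proof of helper53)
-/

set_option autoImplicit false

open Pool.Agent.Y720.MZ MvPolynomial Height AdmissibleAbsValues Pool.Agent.Q35.TT
  Pool.Agent.Q35.TB Pool.Agent.Q53.TT.ORN

namespace Pool.Agent.Q182.TB.Orx

/-! ### Descent of torsion points -/

theorem torW_back {K Ω : Type} [Field K] [Field Ω] [DecidableEq K] [DecidableEq Ω] (φ : K →+* Ω)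
    (W : WeierstrassCurve K) {x y : K} {n : ℕ} (h : W.toAffine.Nonsingular x y)
    (hn : ∃ h' : (W.map φ).toAffine.Nonsingular (φ x) (φ y),
      n • (WeierstrassCurve.Affine.Point.some (φ x) (φ y) h' : (W.map φ).toAffine.Point) = 0) :
    n • (WeierstrassCurve.Affine.Point.some x y h : W.toAffine.Point) = 0 := by
  let _ : Algebra K Ω := φ.toAlgebra
  obtain ⟨h', hn'⟩ := hn
  have h1 : WeierstrassCurve.Affine.Point.map (W' := W.toAffine) (Algebra.ofId K Ω)
      (n • (WeierstrassCurve.Affine.Point.some x y h :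
        (W.toAffine.baseChange K).toAffine.Point)) = 0 := by
    rw [map_nsmul]
    exact hn'
  have h2 := WeierstrassCurve.Affine.Point.map_injective (W' := W.toAffine) (Algebra.ofId K Ω)
    (h1.trans (WeierstrassCurve.Affine.Point.map_zero _).symm)
  exact h2

theorem torP_back {K Ω : Type} [Field K] [Field Ω] (φ : K →+* Ω) {a b c x y : K} {n m : ℕ}
    (h : TorP a b c x y m) (hn : TorP (φ a) (φ b) (φ c) (φ x) (φ y) n) : TorP a b c x y n := by
  let _ : DecidableEq K := Classical.decEq K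
  let _ : DecidableEq Ω := Classical.decEq Ω
  obtain ⟨h1, -⟩ := h
  refine ⟨h1, torW_back φ (cv a b c) h1 ?_⟩
  have e : (cv a b c).map φ = cv (φ a) (φ b) (φ c) := by
    simp [cv, WeierstrassCurve.map]
  obtain ⟨h3, h4⟩ := hn
  generalize (cv a b c).map φ = W at e
  subst e
  exact ⟨h3, h4⟩

/-- torsion points in the kernel of the reduction, on the twisted curves -/
theorem ker_tor (hT : S_TRN) (hE : S_EXT) (hF : S_FGT) {K : Type} [Field K] [CharZero K]
    {v : AbsoluteValue K ℝ} (hv : IsNonarchimedean v) {p : ℕ} (hp : p.Prime) (h5 : 5 ≤ p)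
    (hvp : v (p : K) < 1) {e : ℕ} (he : e ≠ 0) (hu : ∀ u : K, 1 < v u → 1 ≤ v u ^ e * v (p : K))
    {b c g x y : K} (hb : v b ≤ 1) (hc : v c ≤ 1) (hd : dsc 0 b c ≠ 0) (hg : g ≠ 0) {n : ℕ}
    (hn : n ≠ 0) (hP : TorP 0 (g ^ 2 * b) (g ^ 3 * c) x y n) (hx : v g < v x) :
    TorP 0 (g ^ 2 * b) (g ^ 3 * c) x y (p ^ e) := by
  obtain ⟨Ω, iF, iA, w, φ, hw, hwφ⟩ := hE K v hv
  have _ : CharZero Ω := charZero_of_injective_ringHom φ.injective
  obtain ⟨u, hu2⟩ := IsAlgClosed.exists_pow_nat_eq (φ g) (n := 2) (by norm_num)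
  have hφg : φ g ≠ 0 := (map_ne_zero φ).2 hg
  have hu0 : u ≠ 0 := by
    rintro rfl
    apply hφg
    rw [← hu2, zero_pow two_ne_zero]
  have hds : dsc 0 (φ (g ^ 2 * b)) (φ (g ^ 3 * c)) ≠ 0 := by
    have e1 : dsc 0 (φ (g ^ 2 * b)) (φ (g ^ 3 * c)) = φ (g ^ 6 * dsc 0 b c) := by
      simp only [dsc, map_mul, map_pow, map_sub, map_add, map_zero, map_ofNat]
      ring
    rw [e1]
    exact (map_ne_zero φ).2 (mul_ne_zero (pow_ne_zero _ hg) hd)
  have hiff : ∀ m : ℕ, TorP (φ 0) (φ (g ^ 2 * b)) (φ (g ^ 3 * c)) (φ x) (φ y) m ↔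
      TorP 0 (φ b) (φ c) (φ (x / g)) (φ y / u ^ 3) m := by
    intro m
    have h := trn_iff hT 0 (φ (g ^ 2 * b)) (φ (g ^ 3 * c)) (φ x) (φ y) u 0 m hu0 hds
    have f1 : ((0 : Ω) + 3 * 0) / u ^ 2 = 0 := by simp
    have f2 : (φ (g ^ 2 * b) + 2 * 0 * 0 + 3 * 0 ^ 2) / u ^ 4 = φ b := by
      rw [map_mul, map_pow, ← hu2]
      field_simp
      ring
    have f3 : (φ (g ^ 3 * c) + 0 * φ (g ^ 2 * b) + 0 ^ 2 * 0 + 0 ^ 3) / u ^ 6 = φ c := by
      rw [map_mul, map_pow, ← hu2]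
      field_simp
      ring
    have f4 : (φ x - 0) / u ^ 2 = φ (x / g) := by
      rw [hu2, sub_zero, map_div₀]
    rw [f1, f2, f3, f4] at h
    rw [map_zero]
    exact h
  have hgp : 0 < v g := v.pos hg
  have hx1 : 1 < v (x / g) := by
    rw [map_div₀, one_lt_div hgp]
    exact hx
  refine torP_back φ hP ((hiff _).2 ?_)
  refine hF Ω w hw p hp h5 ?_ 0 (φ b) (φ c) (φ (x / g)) _ e n ?_ ?_ ?_ hn he
    ((hiff n).1 (Pool.Agent.Q65.TT.torP_map φ hP)) ?_ ?_
  · rw [← map_natCast φ, hwφ]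
    exact hvp
  · rw [map_zero]
    exact zero_le_one
  · rw [hwφ]
    exact hb
  · rw [hwφ]
    exact hc
  · rw [hwφ]
    exact hx1
  · rw [← map_natCast φ, hwφ, hwφ]
    exact hu _ hx1

/-! ### The order of a point -/

section order

variable {K : Type} [Field K] {v : AbsoluteValue K ℝ}

theorem order_bound (hv : IsNonarchimedean v) (h2 : v 2 = 1) {b c g x y : K}
    (hb : v b ≤ 1) (hc : v c ≤ 1) (hd : v (dsc 0 b c) = 1) (hg : g ≠ 0) {N : ℕ}
    (hT : TorP 0 (g ^ 2 * b) (g ^ 3 * c) x y N) {E : ℕ} (hE : E ≠ 0)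
    (hker : ∀ x' y' : K, TorP 0 (g ^ 2 * b) (g ^ 3 * c) x' y' N → v g < v x' →
      TorP 0 (g ^ 2 * b) (g ^ 3 * c) x' y' E) {F : Type} [Fintype F] (ρ : K → F)
    (hρ : ∀ x y, v x ≤ 1 → v y ≤ 1 → ρ x = ρ y → v (x - y) < 1) :
    ∃ N' : ℕ, N' ≠ 0 ∧ TorP 0 (g ^ 2 * b) (g ^ 3 * c) x y N' ∧
      N' ≤ E * (Fintype.card F ^ 2 + 1) := by
  have hgp : 0 < v g := v.pos hg
  let _ : DecidableEq K := Classical.decEq K
  obtain ⟨hns, hN0⟩ := hT
  obtain ⟨P, hP⟩ : ∃ P : Pt 0 (g ^ 2 * b) (g ^ 3 * c), P = .some x y hns := ⟨_, rfl⟩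
  rw [← hP] at hN0
  have hkill : ∀ z : ℤ, N • (z • P) = 0 := by
    intro z
    rw [smul_comm, hN0, smul_zero]
  -- coordinates
  have hco : ∀ Q : Pt 0 (g ^ 2 * b) (g ^ 3 * c), ∃ x' y' : K, Q ≠ 0 → ∃ h', Q = .some x' y' h' := by
    intro Q
    rcases Q with _ | ⟨x', y', h'⟩
    · exact ⟨0, 0, fun h => absurd rfl h⟩
    · exact ⟨x', y', fun _ => ⟨h', rfl⟩⟩
  choose X Y hXY using hco
  -- one of the first multiples is zero or in the kernel of the reduction
  have hex : ∃ k : ℕ, 0 < k ∧ k ≤ 2 * Fintype.card F + 2 ∧ (k • P = 0 ∨ v g < v (X (k • P))) := by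
    by_contra hcon
    push Not at hcon
    have hne : ∀ k : ℕ, 0 < k → k ≤ 2 * Fintype.card F + 2 → k • P ≠ 0 := fun k h1 h3 =>
      (hcon k h1 h3).1
    have hXle : ∀ k : ℕ, 0 < k → k ≤ 2 * Fintype.card F + 2 → v (X (k • P)) ≤ v g :=
      fun k h1 h3 => (hcon k h1 h3).2
    have hinj : ∀ k l : ℕ, 0 < k → k < l → k + l ≤ 2 * Fintype.card F + 2 →
        ρ (X (k • P) / g) ≠ ρ (X (l • P) / g) := by
      intro k l hk hkl hlt hr
      have hk' : k ≤ 2 * Fintype.card F + 2 := by omega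
      have hl' : l ≤ 2 * Fintype.card F + 2 := by omega
      have hl0 : 0 < l := by omega
      have vx1 := hXle k hk hk'
      have vx2 := hXle l hl0 hl'
      have hadd : (k + l) • P ≠ 0 := hne _ (by omega) hlt
      have hsub : (l - k) • P ≠ 0 := hne _ (by omega) (by omega)
      obtain ⟨n1, e1⟩ := hXY (k • P) (hne k hk hk')
      obtain ⟨n2, e2⟩ := hXY (l • P) (hne l hl0 hl')
      obtain ⟨na, ea⟩ := hXY _ hadd
      obtain ⟨nb, eb⟩ := hXY _ hsub
      have vxa := hXle (k + l) (by omega) hlt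
      have vxb := hXle (l - k) (by omega) (by omega)
      have hdiv : ∀ t : K, v t ≤ v g → v (t / g) ≤ 1 := by
        intro t ht
        rw [map_div₀, div_le_one hgp]
        exact ht
      have hlt1 := hρ _ _ (hdiv _ vx1) (hdiv _ vx2) hr
      have eadd : (k + l) • P = k • P + l • P := add_nsmul P k l
      have esub : (l - k) • P = -(k • P + -(l • P)) := by
        have h3 : l • P = (l - k) • P + k • P := by
          rw [← add_nsmul]
          congr 1
          omega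
        rw [h3]
        abel
      obtain ⟨x₁, hx₁⟩ : ∃ t : K, t = X (k • P) := ⟨_, rfl⟩
      obtain ⟨y₁, hy₁⟩ : ∃ t : K, t = Y (k • P) := ⟨_, rfl⟩
      obtain ⟨x₂, hx₂⟩ : ∃ t : K, t = X (l • P) := ⟨_, rfl⟩
      obtain ⟨y₂, hy₂⟩ : ∃ t : K, t = Y (l • P) := ⟨_, rfl⟩
      rw [← hx₁, ← hx₂] at hlt1
      rw [← hx₁] at vx1
      rw [← hx₂] at vx2
      revert n1 n2
      rw [← hx₁, ← hx₂, ← hy₁, ← hy₂]
      intro n1 e1 n2 e2
      by_cases hxx : x₁ = x₂
      · subst hxx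
        rcases eq_or_neg n1 n2 with h | h
        · rw [← e1, ← e2] at h
          apply hsub
          rw [esub, h, add_neg_cancel, neg_zero]
        · rw [← e1, ← e2] at h
          apply hadd
          rw [eadd, h, neg_add_cancel]
      · have hxs : x₁ - x₂ ≠ 0 := sub_ne_zero.2 hxx
        obtain ⟨n2', e2'⟩ := neg_mk n2
        obtain ⟨n3, e3⟩ := add_mk n1 n2 hxx (ℓ := (y₁ - y₂) / (x₁ - x₂)) (by field_simp)
        obtain ⟨n4, e4⟩ := add_mk n1 n2' hxx (ℓ := (y₁ - -y₂) / (x₁ - x₂)) (by field_simp)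
        rw [← e2', ← e2, ← e1] at e4
        rw [← e1, ← e2] at e3
        refine collide hv h2 hb hc hd hg (cv_ns.1 n1).1 (cv_ns.1 n2).1 hxx vx1 vx2 ?_ ?_ hlt1
        · rw [← eadd, ea] at e3
          have h6 := (WeierstrassCurve.Affine.Point.some.inj e3).1
          rw [← h6]
          exact vxa
        · obtain ⟨n5, e5⟩ := neg_mk n4
          rw [← e4, ← esub, eb] at e5
          have h6 := (WeierstrassCurve.Affine.Point.some.inj e5).1
          rw [← h6]
          exact vxb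
    have h3 : (Finset.Icc 1 (Fintype.card F + 1)).card ≤ (Finset.univ : Finset F).card := by
      apply Finset.card_le_card_of_injOn (fun k => ρ (X (k • P) / g))
      · intro k _
        exact Finset.mem_coe.2 (Finset.mem_univ _)
      · intro k hk l hl hkl
        rw [Finset.mem_coe, Finset.mem_Icc] at hk hl
        rcases lt_trichotomy k l with h | h | h
        · exact absurd hkl (hinj k l (by omega) h (by omega))
        · exact h
        · exact absurd hkl.symm (hinj l k (by omega) h (by omega))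
    rw [Nat.card_Icc, Finset.card_univ] at h3
    omega
  obtain ⟨k, hk0, hk, hkP⟩ := hex
  have h3 := card_three h2 ρ hρ
  have hle : k ≤ Fintype.card F ^ 2 + 1 := by nlinarith
  by_cases hk1 : k • P = 0
  · refine ⟨k, hk0.ne', ⟨hns, ?_⟩, ?_⟩
    · rw [← hP]
      exact hk1
    · exact hle.trans (Nat.le_mul_of_pos_left _ (Nat.pos_of_ne_zero hE))
  · obtain ⟨h', e'⟩ := hXY _ hk1
    have hx' : v g < v (X (k • P)) := hkP.resolve_left hk1
    have h4 := hker _ (Y (k • P)) ⟨h', by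
      rw [← e']
      have := hkill k
      rwa [natCast_zsmul] at this⟩ hx'
    obtain ⟨h'', h5⟩ := h4
    refine ⟨E * k, mul_ne_zero hE hk0.ne', ⟨hns, ?_⟩, Nat.mul_le_mul_left _ hle⟩
    rw [← hP, mul_nsmul', e']
    exact h5

end order

/-! ### The discriminant over the extensions -/

section ext

variable {K L : Type} [Field K] [Field L] [Algebra K L] {n : ℕ}

theorem ex_supp (f : MvPolynomial (Fin n) K) : (ex L f).support = f.support :=
  support_map_of_injective _ (algebraMap K L).injective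

theorem ex_deg (f : MvPolynomial (Fin n) K) {d : ℕ} (hf : ∀ j, f.degreeOf j ≤ d) (j : Fin n) :
    (ex L f).degreeOf j ≤ d := by
  have h1 := hf j
  rw [degreeOf_le_iff] at h1 ⊢
  rw [ex_supp]
  exact h1

theorem ex_lp (f : MvPolynomial (Fin n) K) (i : Fin n) (k : Fin 5) :
    ex L (Pool.Agent.Q238.TT.lp f i k) = Pool.Agent.Q238.TT.lp (ex L f) i k := by
  show map (algebraMap K L) (Pool.Agent.Q238.TT.lp f i k) = _
  unfold Pool.Agent.Q238.TT.lp
  rw [map_sum, ex_supp]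
  refine Finset.sum_congr rfl fun m _ => ?_
  rw [map_mul, map_C, map_prod, coeff_map]
  refine congrArg _ (Finset.prod_congr rfl fun j _ => ?_)
  rw [map_pow, map_X]

theorem ex_pd (f : MvPolynomial (Fin n) K) (i : Fin n) : ex L (pd f i) = pd (ex L f) i := by
  have h : ∀ k, map (algebraMap K L) (Pool.Agent.Q238.TT.lp f i k) =
      Pool.Agent.Q238.TT.lp (ex L f) i k := fun k => ex_lp f i k
  show map (algebraMap K L) (pd f i) = _
  unfold pd dc dsc
  simp only [map_add, map_sub, map_mul, map_pow, map_ofNat, h]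

end ext

/-- **ORX**: the order of the torsion points of bounded degree is smaller than any power of the
height. -/
theorem orx (h1 : S_TRN) (h2 : S_EXT) (h3 : S_FGT) (h4 : S_SEX) : S_ORX := by
  intro K _ _ n f hf i M D
  classical
  obtain ⟨e, he⟩ : ∃ e : ℕ, e = D * Module.finrank ℚ K := ⟨_, rfl⟩
  obtain ⟨C, hC, hsel⟩ := h4 K n (pd f i) 24 (fun j => pd_deg f hf i)
    (f.support.image fun m => f.coeff m) (e * M) D
  refine ⟨C, hC, ?_⟩
  intro L _ _ _ hD z N hN hT
  obtain ⟨a, ha⟩ : ∃ a : Fin 5 → L, a = lc (ex L f) (af z) i := ⟨_, rfl⟩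
  rw [← ha] at hT ⊢
  have he0 : e ≠ 0 := by
    have h5 := deg_le (K := K) hD
    have h6 : 0 < Module.finrank ℚ L := Module.finrank_pos
    omega
  have hfL : ∀ j, (ex L f).degreeOf j ≤ 4 := ex_deg f hf
  have hg : bq a ![1, z i] ≠ 0 := hT.1
  have hT' := hT
  unfold TorT at hT'
  rw [Pool.Agent.Q190.TT.tor_iff a _ (z i) _ N hg] at hT'
  have hdc : dc (a 0) (a 1) (a 2) (a 3) (a 4) ≠ 0 := hT'.2.2.1
  obtain ⟨v, hvn, p, hp, hp5, hvp, hu, hS, hvP, F, hF, ρ, hcard, hρ⟩ := hsel L hD z (by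
    rw [ex_pd, pd_eval, ← ha]
    exact hdc)
  rw [ex_pd, pd_eval, ← ha] at hvP
  rw [← he] at hu
  have hv := isNonarchimedean v hvn
  obtain ⟨m, hm0, hm⟩ := Pool.Agent.Q190.TT.Gln.exists_m v z i
  have hmpos : 0 < v m := v.pos hm0
  have e2 : v (2 : L) = 1 := by
    have := na_unit hvn hp hvp (m := 2) (by norm_num) (by omega)
    exact_mod_cast this
  have e3 : v (3 : L) = 1 := by
    have := na_unit hvn hp hvp (m := 3) (by norm_num) (by omega)
    exact_mod_cast this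
  have hc : ∀ m, v ((ex L f).coeff m) ≤ 1 := by
    intro m
    show v ((map (algebraMap K L) f).coeff m) ≤ 1
    rw [coeff_map]
    rcases eq_or_ne (f.coeff m) 0 with h | h
    · rw [h, map_zero, map_zero]; exact zero_le_one
    · exact (hS (f.coeff m) (Finset.mem_image.2 ⟨m, mem_support_iff.2 h, rfl⟩) h).le
  have hai : ∀ k, v (a k) ≤ v m ^ 4 := by
    intro k
    rw [hm, ha]
    exact Pool.Agent.Q190.TT.Gln.lc_le_na hv (ex L f) hfL hc z i k
  obtain ⟨hdd, x', y', hiff⟩ := key h1 a m (z i) hm0 hg hdc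
  have vb : v (-Pool.Agent.Q224.TT.Loc.II a / (3 * m ^ 8)) ≤ 1 := by
    rw [map_div₀, v.map_neg, map_mul, map_pow, e3, one_mul, div_le_iff₀ (by positivity), one_mul]
    refine (Pool.Agent.Q224.TT.Loc.vII' v hv a _ hai).trans (le_of_eq ?_)
    ring
  have vc : v (-Pool.Agent.Q224.TT.Loc.JJ a / (27 * m ^ 12)) ≤ 1 := by
    have h27 : v 27 = 1 := by
      rw [show (27 : L) = 3 ^ 3 by norm_num, map_pow, e3, one_pow]
    rw [map_div₀, v.map_neg, map_mul, map_pow, h27, one_mul, div_le_iff₀ (by positivity), one_mul]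
    refine (Pool.Agent.Q224.TT.Loc.vJJ' v hv a _ hai).trans (le_of_eq ?_)
    ring
  have vd : v (dsc 0 (-Pool.Agent.Q224.TT.Loc.II a / (3 * m ^ 8))
      (-Pool.Agent.Q224.TT.Loc.JJ a / (27 * m ^ 12))) = 1 := by
    refine le_antisymm ?_ ?_
    · have e : dsc 0 (-Pool.Agent.Q224.TT.Loc.II a / (3 * m ^ 8))
          (-Pool.Agent.Q224.TT.Loc.JJ a / (27 * m ^ 12)) =
          -(((4 : ℕ) : L) * (-Pool.Agent.Q224.TT.Loc.II a / (3 * m ^ 8)) ^ 3) -
            ((27 : ℕ) : L) * (-Pool.Agent.Q224.TT.Loc.JJ a / (27 * m ^ 12)) ^ 2 := by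
        unfold dsc
        push_cast
        ring
      rw [e]
      refine na_sub hv ?_ ?_
      · rw [v.map_neg, map_mul, map_pow]
        exact mul_le_one₀ (na_nat hv _) (by positivity) (pow_le_one₀ (v.nonneg _) vb)
      · rw [map_mul, map_pow]
        exact mul_le_one₀ (na_nat hv _) (by positivity) (pow_le_one₀ (v.nonneg _) vc)
    · rw [hdd, map_div₀, hvP, map_pow, le_div_iff₀ (by positivity), one_mul]
      have hsplit : ∏ j, max 1 (v (z j)) ^ 24 =
          max 1 (v (z i)) ^ 24 * ∏ j ∈ Finset.univ.erase i, max 1 (v (z j)) ^ 24 :=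
        (Finset.mul_prod_erase Finset.univ _ (Finset.mem_univ i)).symm
      have h6 : v m ^ 24 = ∏ j ∈ Finset.univ.erase i, max 1 (v (z j)) ^ 24 := by
        calc v m ^ 24 = (v m ^ 4) ^ 6 := by ring
          _ = ∏ j ∈ Finset.univ.erase i, (max 1 (v (z j)) ^ 4) ^ 6 := by
              rw [hm]
              exact (Finset.prod_pow _ _ _).symm
          _ = _ := Finset.prod_congr rfl fun j _ => by ring
      rw [hsplit, ← h6]
      have : (1 : ℝ) ≤ max 1 (v (z i)) ^ 24 := one_le_pow₀ (le_max_left _ _)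
      nlinarith [pow_pos hmpos 24]
  have hd0 : dsc 0 (-Pool.Agent.Q224.TT.Loc.II a / (3 * m ^ 8))
      (-Pool.Agent.Q224.TT.Loc.JJ a / (27 * m ^ 12)) ≠ 0 := by
    intro h
    rw [h, map_zero] at vd
    exact zero_ne_one vd
  obtain ⟨N', hN', hTN', hle⟩ := order_bound hv e2 vb vc vd hg ((hiff N).1 hT)
    (E := p ^ e) (pow_ne_zero _ hp.ne_zero)
    (fun x y hxy hlt => ker_tor h1 h2 h3 hv hp hp5 hvp he0 hu vb vc hd0 hg hN hxy hlt) ρ hρ
  refine ⟨N', hN', (hiff N').2 hTN', ?_⟩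
  refine le_trans ?_ hcard
  have hle2 : N' ≤ (p * (Fintype.card F ^ 2 + 1)) ^ e := by
    refine hle.trans ?_
    rw [mul_pow]
    exact Nat.mul_le_mul_left _ (Nat.le_self_pow he0 _)
  rw [pow_mul]
  exact pow_le_pow_left₀ (Nat.cast_nonneg _) (by exact_mod_cast hle2) M

end Pool.Agent.Q182.TB.Orx
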